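import Pool.Agent.Helper6.LPA.St

/-!
# Project LPA (MP_5e9b96_nt), module PRQ: two values of `y`

After `Pool/Agent/Helper89/LP/M_PRP.lean`.
-/

set_option autoImplicit false

noncomputable section

namespace Pool.Agent.Helper44.LPA

open Finset
open Pool.Agent.Helper6.LP Pool.Agent.Helper6.LPA
open Pool.Agent.Helper60.LZ (js)
open Pool.Agent.Helper98.LM (QQ)

private lemma mem_QQ {p w l : ℕ} (h : l ∈ QQ p w) : l.Prime ∧ p < l ∧ l ≤ w := by
  unfold QQ at h
  obtain ⟨h1, h2⟩ := mem_filter.1 h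
  obtain ⟨h3, h4⟩ := mem_Ioc.1 h1
  exact ⟨h2, h3, h4⟩

private lemma mod_ff (P a : ℕ) (y : ℤ) (l m : ℕ) :
    (l : ℤ) ∣ ff ((a : ℤ) + P * ((m % l : ℕ) : ℤ)) y ↔ (l : ℤ) ∣ ff ((a : ℤ) + P * m) y := by
  have h0 : ((a : ℤ) + P * ((m % l : ℕ) : ℤ)) ≡ ((a : ℤ) + P * m) [ZMOD l] := by
    refine Int.ModEq.add_left _ (Int.ModEq.mul_left _ ?_)
    rw [Int.natCast_mod]
    exact Int.mod_modEq _ _
  have h1 : ff ((a : ℤ) + P * ((m % l : ℕ) : ℤ)) y ≡ ff ((a : ℤ) + P * m) y [ZMOD l] := by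
    unfold ff fa fb
    exact Int.ModEq.mul (Int.ModEq.add (Int.ModEq.sub_right _ h0) (Int.ModEq.mul_right _ h0))
      (Int.ModEq.add (Int.ModEq.pow _ (Int.ModEq.sub_right _ h0)) (Int.ModEq.mul_right _ h0))
  exact Int.ModEq.dvd_iff h1

private lemma mem_SS (P a y l m : ℕ) (hl : 0 < l) :
    m % l ∈ SS P a y l ↔ (l : ℤ) ∣ ff ((a : ℤ) + P * m) y := by
  unfold SS
  rw [mem_filter, mem_range, mod_ff]
  exact ⟨fun h => h.2, fun h => ⟨Nat.mod_lt _ hl, h⟩⟩

private lemma js_le (t l : ℕ) : js t l ≤ 1 := by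
  unfold js
  rcases jacobiSym.trichotomy ((t : ℤ) ^ 2 - 4) l with h | h | h <;> rw [h] <;> norm_num

private lemma ge_one (l : ℕ) (hl : 24 ≤ l) (g g' : ℝ) (hg : g ≤ 3) (hg' : g' ≤ 3) :
    1 ≤ (1 - g / l) * (1 - g' / l) * (1 + 8 / (l : ℝ)) := by
  have hl0 : (24 : ℝ) ≤ l := by exact_mod_cast hl
  have hl1 : (0 : ℝ) < l := by linarith
  have hx : (1 : ℝ) / l ≤ 1 / 24 := one_div_le_one_div_of_le (by norm_num) hl0
  have hx0 : (0 : ℝ) < 1 / l := by positivity
  have e1 : (8 : ℝ) / l = 8 * (1 / l) := by ring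
  rw [e1]
  have f1 : 1 - 3 * (1 / (l : ℝ)) ≤ 1 - g / l := by
    have h2 := mul_le_mul_of_nonneg_right hg hx0.le
    have h3 : g / l = g * (1 / (l : ℝ)) := by ring
    rw [h3]
    linarith
  have f2 : 1 - 3 * (1 / (l : ℝ)) ≤ 1 - g' / l := by
    have h2 := mul_le_mul_of_nonneg_right hg' hx0.le
    have h3 : g' / l = g' * (1 / (l : ℝ)) := by ring
    rw [h3]
    linarith
  have f3 : 0 ≤ 1 - 3 * (1 / (l : ℝ)) := by linarith
  have h1 : (1 - 3 * (1 / (l : ℝ))) * (1 - 3 * (1 / (l : ℝ))) ≤ (1 - g / l) * (1 - g' / l) :=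
    mul_le_mul f1 f2 f3 (f3.trans f1)
  have h2 : 1 ≤ (1 - 3 * (1 / (l : ℝ))) * (1 - 3 * (1 / (l : ℝ))) * (1 + 8 * (1 / (l : ℝ))) := by
    generalize (1 : ℝ) / l = x at hx hx0
    nlinarith [mul_pos hx0 hx0, mul_pos (mul_pos hx0 hx0) hx0, mul_nonneg hx0.le (sub_nonneg.2 hx)]
  exact h2.trans (mul_le_mul_of_nonneg_right h1 (by linarith))

private lemma card_le (hL : StLOP) (P a y l : ℕ) (hl : l.Prime) (h3 : 3 < l) (hP : ¬ l ∣ P) (hy : 2 ≤ y) :
    ((SS P a y l).card : ℝ) ≤ 3 := by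
  have h1 := (hL P a l hl h3 hP).1 y hy
  have h2 := js_le (y - 2) l
  linarith

private lemma point (hL : StLOP) (P a y z l : ℕ) (hl : l.Prime) (h24 : 24 ≤ l) (hP : ¬ l ∣ P)
    (hy : 2 ≤ y) (hz : 2 ≤ z) :
    1 - ((SS P a y l ∪ SS P a z l).card : ℝ) / l ≤
      ((1 - ((SS P a y l).card : ℝ) / l) * (1 - ((SS P a z l).card : ℝ) / l)) *
        (if l ∣ DD y z then (1 + 8 / (l : ℝ)) else 1) := by
  have h4 := (hL P a l hl (by omega) hP).2
  have hl1 : (0 : ℝ) < l := by exact_mod_cast hl.pos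
  have h5 := ge_one l h24 _ _ (card_le hL P a y l hl (by omega) hP hy) (card_le hL P a z l hl (by omega) hP hz)
  have h6 : (0 : ℝ) ≤ ((SS P a y l ∪ SS P a z l).card : ℝ) / l := by positivity
  by_cases c2 : l ∣ DD y z
  · rw [if_pos c2]
    linarith
  · rw [if_neg c2, mul_one, card_union_of_disjoint (h4 y z c2)]
    push_cast
    have e : (1 - ((SS P a y l).card : ℝ) / l) * (1 - ((SS P a z l).card : ℝ) / l) =
        1 - (((SS P a y l).card : ℝ) + (SS P a z l).card) / l +
          (((SS P a y l).card : ℝ) / l) * (((SS P a z l).card : ℝ) / l) := by ring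
    rw [e]
    have : (0 : ℝ) ≤ (((SS P a y l).card : ℝ) / l) * (((SS P a z l).card : ℝ) / l) := by positivity
    linarith

/-- the classes: those of `y` for `T`, those of `y'` for `T'`, all for the others -/
private def Sc (P a y y' : ℕ) (T T' : Finset ℕ) (l : ℕ) : Finset ℕ :=
  if l ∈ T then SS P a y l else if l ∈ T' then SS P a y' l else SS P a y l ∪ SS P a y' l

private lemma lt_SS {P a y l s : ℕ} (h : s ∈ SS P a y l) : s < l := by
  unfold SS at h
  exact mem_range.1 (mem_filter.1 h).1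

/-- Module PRQ. -/
theorem hPRQ (hL : StLOP) : StPRQ := by
  classical
  intro ε K B hB p P a y y' z w M T hT T' hT' hp hpz hP hy hy' hD1 hD2
  have hnP : ∀ l ∈ QQ p z, ¬ l ∣ P := by
    intro l hl h
    have h1 := mem_QQ hl
    have h2 := hP l h1.1 h
    omega
  have h24 : ∀ l ∈ QQ p z, 24 ≤ l := by
    intro l hl
    have h1 := mem_QQ hl
    omega
  have hc6 : ∀ l ∈ QQ p z, (SS P a y l ∪ SS P a y' l).card ≤ 6 := by
    intro l hl
    have h2 : (SS P a y l).card ≤ 3 := by
      exact_mod_cast card_le hL P a y l (mem_QQ hl).1 (by have := h24 l hl; omega) (hnP l hl) hy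
    have h3 : (SS P a y' l).card ≤ 3 := by
      exact_mod_cast card_le hL P a y' l (mem_QQ hl).1 (by have := h24 l hl; omega) (hnP l hl) hy'
    have h4 := card_union_le (SS P a y l) (SS P a y' l)
    omega
  have hf0 : ∀ l ∈ QQ p z, 0 ≤ 1 - ((SS P a y l ∪ SS P a y' l).card : ℝ) / l := by
    intro l hl
    have h1 : (((SS P a y l ∪ SS P a y' l).card : ℕ) : ℝ) ≤ 6 := by exact_mod_cast hc6 l hl
    have h2 : (24 : ℝ) ≤ l := by exact_mod_cast h24 l hl
    have h3 : (0 : ℝ) < l := by linarith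
    rw [sub_nonneg, div_le_one h3]
    linarith
  refine ⟨fun hdis => ?_, fun hnd => ?_, ?_, ?_⟩
  · have hQT : ∀ l ∈ QQ p z, l ∉ T := by
      intro l hl h
      have h1 := (mem_QQ hl).2.2
      have h2 := (mem_QQ (hT h)).2.1
      omega
    have hQT' : ∀ l ∈ QQ p z, l ∉ T' := by
      intro l hl h
      have h1 := (mem_QQ hl).2.2
      have h2 := (mem_QQ (hT' h)).2.1
      omega
    have hTT' : ∀ l ∈ T', l ∉ T := fun l hl h => (Finset.disjoint_left.1 hdis) h hl
    have s1 : ∀ l ∈ QQ p z, Sc P a y y' T T' l = SS P a y l ∪ SS P a y' l := by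
      intro l hl
      unfold Sc
      rw [if_neg (hQT l hl), if_neg (hQT' l hl)]
    have s2 : ∀ l ∈ T, Sc P a y y' T T' l = SS P a y l := by
      intro l hl
      unfold Sc
      rw [if_pos hl]
    have s3 : ∀ l ∈ T', Sc P a y y' T T' l = SS P a y' l := by
      intro l hl
      unfold Sc
      rw [if_neg (hTT' l hl), if_pos hl]
    have key := hB z M (by omega) (QQ p z) (T ∪ T') (Sc P a y y' T T')
      (fun l hl => ⟨(mem_QQ hl).1, by have := h24 l hl; omega, (mem_QQ hl).2.2, by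
        rw [s1 l hl]; exact hc6 l hl⟩)
      (fun l hl => by
        rcases mem_union.1 hl with h | h
        · exact (mem_QQ (hT h)).1
        · exact (mem_QQ (hT' h)).1)
      (Finset.disjoint_left.2 fun l hl h => by
        rcases mem_union.1 h with h | h
        · exact hQT l hl h
        · exact hQT' l hl h)
      (fun l _ s hs => by
        unfold Sc at hs
        split_ifs at hs
        · exact lt_SS hs
        · exact lt_SS hs
        · rcases mem_union.1 hs with h | h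
          · exact lt_SS h
          · exact lt_SS h)
    have p1 : ∏ l ∈ QQ p z, (1 - ((Sc P a y y' T T' l).card : ℝ) / l) = VD p z P a y y' := by
      unfold VD
      exact prod_congr rfl fun l hl => by rw [s1 l hl]
    have p2 : ∏ l ∈ T ∪ T', ((Sc P a y y' T T' l).card : ℝ) / l = gg P a y T * gg P a y' T' := by
      rw [prod_union hdis]
      unfold gg
      congr 1
      · exact prod_congr rfl fun l hl => by rw [s2 l hl]
      · exact prod_congr rfl fun l hl => by rw [s3 l hl]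
    rw [p1, p2, prod_union hdis] at key
    have hset : ((Icc 1 M).filter (fun m : ℕ => (Sf p z ((a : ℤ) + P * m) y ∧
        Dv T ((a : ℤ) + P * m) y) ∧ Sf p z ((a : ℤ) + P * m) y' ∧
        Dv T' ((a : ℤ) + P * m) y')).card =
        ((Icc 1 M).filter (fun m : ℕ => (∀ l ∈ QQ p z, m % l ∉ Sc P a y y' T T' l) ∧
          ∀ l ∈ T ∪ T', m % l ∈ Sc P a y y' T T' l)).card := by
      congr 1
      refine filter_congr fun m _ => ?_
      constructor
      · rintro ⟨⟨h1, h2⟩, h3, h4⟩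
        refine ⟨fun l hl h => ?_, fun l hl => ?_⟩
        · rw [s1 l hl] at h
          rcases mem_union.1 h with h5 | h5
          · exact h1 l hl ((mem_SS P a y l m (mem_QQ hl).1.pos).1 h5)
          · exact h3 l hl ((mem_SS P a y' l m (mem_QQ hl).1.pos).1 h5)
        · rcases mem_union.1 hl with h | h
          · rw [s2 l h]
            exact (mem_SS P a y l m (mem_QQ (hT h)).1.pos).2 (h2 l h)
          · rw [s3 l h]
            exact (mem_SS P a y' l m (mem_QQ (hT' h)).1.pos).2 (h4 l h)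
      · rintro ⟨h1, h2⟩
        refine ⟨⟨fun l hl h => ?_, fun l hl => ?_⟩, fun l hl h => ?_, fun l hl => ?_⟩
        · refine h1 l hl ?_
          rw [s1 l hl]
          exact mem_union_left _ ((mem_SS P a y l m (mem_QQ hl).1.pos).2 h)
        · have h3 := h2 l (mem_union_left _ hl)
          rw [s2 l hl] at h3
          exact (mem_SS P a y l m (mem_QQ (hT hl)).1.pos).1 h3
        · refine h1 l hl ?_
          rw [s1 l hl]
          exact mem_union_right _ ((mem_SS P a y' l m (mem_QQ hl).1.pos).2 h)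
        · have h3 := h2 l (mem_union_right _ hl)
          rw [s3 l hl] at h3
          exact (mem_SS P a y' l m (mem_QQ (hT' hl)).1.pos).1 h3
    rw [hset]
    exact key
  · obtain ⟨l, hl, hl'⟩ := Finset.not_disjoint_iff.1 hnd
    have h1 := mem_QQ (hT hl)
    have h2 : ¬ l ∣ DD y y' := by
      intro h
      have h3 := Nat.le_of_dvd (by omega) h
      omega
    have h3 : ¬ l ∣ P := by
      intro h
      have h4 := hP l h1.1 h
      omega
    have h4 := (hL P a l h1.1 (by omega) h3).2 y y' h2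
    rw [Finset.filter_eq_empty_iff]
    rintro m _ ⟨h5, h6⟩
    exact (Finset.disjoint_left.1 h4) ((mem_SS P a y l m h1.1.pos).2 (h5 l hl))
      ((mem_SS P a y' l m h1.1.pos).2 (h6 l hl'))
  · unfold VD
    exact prod_nonneg hf0
  · rw [prod_filter]
    unfold VD VV
    rw [← prod_mul_distrib, ← prod_mul_distrib]
    exact prod_le_prod hf0
      (fun l hl => point hL P a y y' l (mem_QQ hl).1 (h24 l hl) (hnP l hl) hy hy')

end Pool.Agent.Helper44.LPA
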